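import Pool.Agent.Lib.MP_524519_ag.DU5.AB.Iface

/-! # DU5/AB, module PTOP: every coefficient is a top coefficient -/

set_option autoImplicit false

namespace Pool.Agent.DU5.AB.H79

open MvPowerSeries Pool.Agent.DU5 Pool.Agent.DU5.AB

theorem mn_eq {k : Type} [Field k] {p : ℕ} (b : Fin 3 → Fin p) :
    (mn b : O k 3) = monomial (ex b) 1 := by
  have h : ex b = Finsupp.single 0 (b 0 : ℕ) + Finsupp.single 1 (b 1 : ℕ) +
      Finsupp.single 2 (b 2 : ℕ) := by
    ext i
    fin_cases i <;> simp [ex, Finsupp.single_apply]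
  unfold mn
  rw [Fin.prod_univ_three, X_pow_eq, X_pow_eq, X_pow_eq, monomial_mul_monomial,
    monomial_mul_monomial, h]
  simp

theorem ptop : PTOPStatement := by
  intro p _ k _ _ _ G a b t hab ht
  funext u
  show (frobeniusEquiv k p).symm (coeff (p • u + ex t) (mn b * G)) =
    (frobeniusEquiv k p).symm (coeff (p • u + ex a) G)
  congr 1
  have h : p • u + ex t = ex b + (p • u + ex a) := by
    ext i
    have h1 := hab i
    have h2 := ht i
    simp only [ex, Finsupp.add_apply, Finsupp.equivFunOnFinite_symm_apply_apply]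
    omega
  rw [h, mn_eq, coeff_add_monomial_mul, one_mul]

end Pool.Agent.DU5.AB.H79
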